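import Mathlib

/-!
Induced bipartite subgraphs versus average eccentricity and neighbourhood independence.
For a root `r`, a vertex `v` at level `k` and an independent set `I` of neighbours of `v`, the set
made of `v`, `I` and the vertices of a geodesic from `r` whose level differs from `k` by at least
two induces a bipartite graph.  This gives `b ≥ diam + L - 1` and `b ≥ ecc v + L`.
-/

open Finset

namespace Pool.Agent.Results.MP_b44c21_co.BipartiteBound

variable {V : Type*}

/-- Eccentricity of a vertex: the largest distance from it to a vertex. -/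
noncomputable def ecc [Fintype V] (G : SimpleGraph V) (v : V) : ℕ :=
  univ.sup (fun u => G.dist v u)

/-- Average eccentricity. -/
noncomputable def avgEcc [Fintype V] (G : SimpleGraph V) : ℝ :=
  (∑ v, (ecc G v : ℝ)) / (Fintype.card V : ℝ)

/-- Largest independence number of the subgraph induced on an open neighbourhood. -/
noncomputable def maxLocalIndep [Fintype V] (G : SimpleGraph V) : ℕ :=
  univ.sup (fun v => (G.induce (G.neighborSet v)).indepNum)

/-- Largest number of vertices of an induced bipartite subgraph. -/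
noncomputable def bipNum (G : SimpleGraph V) : ℕ :=
  sSup {m | ∃ S : Finset V, S.card = m ∧ (G.induce (S : Set V)).IsBipartite}

theorem le_bipNum [Fintype V] (G : SimpleGraph V) (S : Finset V)
    (h : (G.induce (S : Set V)).IsBipartite) : S.card ≤ bipNum G := by
  apply le_csSup
  · refine ⟨Fintype.card V, ?_⟩
    rintro m ⟨T, rfl, -⟩
    exact card_le_univ T
  · exact ⟨S, rfl, h⟩

theorem geodesic (G : SimpleGraph V) (hc : G.Connected) (r t : V) :
    ∃ p : ℕ → V, ∀ i ≤ G.dist r t, G.dist r (p i) = i := by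
  obtain ⟨w, hw⟩ := hc.exists_walk_length_eq_dist r t
  refine ⟨fun i => w.getVert i, fun i hi => ?_⟩
  have h1 : G.dist r (w.getVert i) ≤ i := by
    have := SimpleGraph.dist_le (w.take i)
    rw [SimpleGraph.Walk.take_length] at this
    exact this.trans (min_le_left _ _)
  have h2 : G.dist (w.getVert i) t ≤ w.length - i := by
    have := SimpleGraph.dist_le (w.drop i)
    rwa [SimpleGraph.Walk.drop_length] at this
  have h3 := hc.dist_triangle (u := r) (v := w.getVert i) (w := t)
  show G.dist r (w.getVert i) = i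
  omega

theorem adj_dist (G : SimpleGraph V) (hc : G.Connected) (r : V) {x y : V} (h : G.Adj x y) :
    G.dist r y ≤ G.dist r x + 1 := by
  have h3 := hc.dist_triangle (u := r) (v := x) (w := y)
  have := SimpleGraph.dist_eq_one_iff_adj.2 h
  omega

theorem key [Fintype V] (G : SimpleGraph V) (hc : G.Connected) (r t v : V) (I : Finset V)
    (hI : ∀ x ∈ I, G.Adj v x) (hI' : ∀ x ∈ I, ∀ y ∈ I, ¬ G.Adj x y) :
    1 + I.card + ((range (G.dist r t + 1)).filter
      (fun i => i + 2 ≤ G.dist r v ∨ G.dist r v + 2 ≤ i)).card ≤ bipNum G := by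
  classical
  obtain ⟨p, hp⟩ := geodesic G hc r t
  set k := G.dist r v with hk
  set J := (range (G.dist r t + 1)).filter (fun i => i + 2 ≤ k ∨ k + 2 ≤ i) with hJ
  have hJ1 : ∀ i ∈ J, G.dist r (p i) = i ∧ (i + 2 ≤ k ∨ k + 2 ≤ i) := by
    intro i hi
    rw [hJ, mem_filter, mem_range] at hi
    exact ⟨hp i (by omega), hi.2⟩
  have hlev : ∀ x ∈ I, G.dist r x ≤ k + 1 ∧ k ≤ G.dist r x + 1 := fun x hx =>
    ⟨adj_dist G hc r (hI x hx), adj_dist G hc r (hI x hx).symm⟩
  have hP : ∀ x ∈ J.image p, G.dist r x + 2 ≤ k ∨ k + 2 ≤ G.dist r x := by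
    intro x hx
    obtain ⟨i, hi, rfl⟩ := mem_image.1 hx
    have := hJ1 i hi
    omega
  have hPinj : ∀ x ∈ J.image p, ∀ y ∈ J.image p, G.dist r x = G.dist r y → x = y := by
    intro x hx y hy hxy
    obtain ⟨i, hi, rfl⟩ := mem_image.1 hx
    obtain ⟨j, hj, rfl⟩ := mem_image.1 hy
    rw [(hJ1 i hi).1, (hJ1 j hj).1] at hxy
    rw [hxy]
  have hvI : v ∉ I := fun h => (hI v h).ne rfl
  have hvP : v ∉ J.image p := fun h => by have := hP v h; omega
  have hdisj : Disjoint I (J.image p) := by
    rw [disjoint_left]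
    intro x hx hx'
    have := hP x hx'
    have := hlev x hx
    omega
  have hcardP : (J.image p).card = J.card := by
    apply card_image_of_injOn
    intro i hi j hj hij
    have h1 := (hJ1 i hi).1
    have h2 := (hJ1 j hj).1
    rw [hij] at h1
    omega
  have hcard : (insert v (I ∪ J.image p)).card = 1 + I.card + J.card := by
    rw [card_insert_of_notMem (by simp only [mem_union]; tauto), card_union_of_disjoint hdisj,
      hcardP]
    omega
  rw [← hcard]
  apply le_bipNum
  refine ⟨SimpleGraph.Coloring.mk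
    (fun x => if x.1 ∈ I then (1 : Fin 2) else
      if (G.dist r x.1 + k) % 2 = 0 then 0 else 1) ?_⟩
  rintro ⟨x, hx⟩ ⟨y, hy⟩ hxy
  have hxy' : G.Adj x y := hxy
  have a1 := adj_dist G hc r hxy'
  have a2 := adj_dist G hc r hxy'.symm
  simp only [coe_insert, coe_union, Set.mem_insert_iff, Set.mem_union, mem_coe] at hx hy
  have hne := hxy'.ne
  by_cases hxI : x ∈ I <;> by_cases hyI : y ∈ I
  · exact absurd hxy' (hI' x hxI y hyI)
  · have := hlev x hxI
    have hy0 : (G.dist r y + k) % 2 = 0 := by
      rcases hy with rfl | hy | hy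
      · omega
      · exact absurd hy hyI
      · have := hP y hy; omega
    simp [hxI, hyI, hy0]
  · have := hlev y hyI
    have hx0 : (G.dist r x + k) % 2 = 0 := by
      rcases hx with rfl | hx | hx
      · omega
      · exact absurd hx hxI
      · have := hP x hx; omega
    simp [hxI, hyI, hx0]
  · have hd : G.dist r x ≠ G.dist r y := by
      rcases hx with rfl | hx | hx
      · rcases hy with rfl | hy | hy
        · exact absurd rfl hne
        · exact absurd hy hyI
        · have := hP y hy; omega
      · exact absurd hx hxI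
      · rcases hy with rfl | hy | hy
        · have := hP x hx; omega
        · exact absurd hy hyI
        · exact fun h => hne (hPinj x hx y hy h)
    by_cases h0 : (G.dist r x + k) % 2 = 0
    · have h1 : ¬ (G.dist r y + k) % 2 = 0 := by omega
      simp [hxI, hyI, h0, h1]
    · have h1 : (G.dist r y + k) % 2 = 0 := by omega
      simp [hxI, hyI, h0, h1]

theorem count1 (D k : ℕ) :
    D ≤ ((range (D + 1)).filter (fun i => i + 2 ≤ k ∨ k + 2 ≤ i)).card + 2 := by
  have h := card_filter_add_card_filter_not (s := range (D + 1))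
    (fun i => i + 2 ≤ k ∨ k + 2 ≤ i)
  have h2 : ((range (D + 1)).filter (fun i => ¬ (i + 2 ≤ k ∨ k + 2 ≤ i))).card ≤ 3 := by
    have : (range (D + 1)).filter (fun i => ¬ (i + 2 ≤ k ∨ k + 2 ≤ i)) ⊆ {k - 1, k, k + 1} := by
      intro i hi
      simp only [mem_filter, mem_range] at hi
      simp only [mem_insert, mem_singleton]
      omega
    exact (card_le_card this).trans card_le_three
  rw [card_range] at h
  omega

theorem count2 (D : ℕ) :
    D ≤ ((range (D + 1)).filter (fun i => i + 2 ≤ 0 ∨ 0 + 2 ≤ i)).card + 1 := by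
  have h := card_filter_add_card_filter_not (s := range (D + 1))
    (fun i => i + 2 ≤ 0 ∨ 0 + 2 ≤ i)
  have h2 : ((range (D + 1)).filter (fun i => ¬ (i + 2 ≤ 0 ∨ 0 + 2 ≤ i))).card ≤ 2 := by
    have : (range (D + 1)).filter (fun i => ¬ (i + 2 ≤ 0 ∨ 0 + 2 ≤ i)) ⊆ {0, 1} := by
      intro i hi
      simp only [mem_filter, mem_range] at hi
      simp only [mem_insert, mem_singleton]
      omega
    exact (card_le_card this).trans card_le_two
  rw [card_range] at h
  omega

theorem result {V : Type*} [Fintype V] (G : SimpleGraph V) (hc : G.Connected) :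
    ⌊avgEcc G + (maxLocalIndep G : ℝ)⌋ ≤ (bipNum G : ℤ) := by
  classical
  have hne : Nonempty V := hc.nonempty
  obtain ⟨v, -, hv⟩ := exists_mem_eq_sup (univ : Finset V) univ_nonempty
    (fun v => (G.induce (G.neighborSet v)).indepNum)
  obtain ⟨s, hs⟩ := (G.induce (G.neighborSet v)).exists_isNIndepSet_indepNum
  set I : Finset V := s.map (Function.Embedding.subtype _) with hIdef
  have hIcard : I.card = maxLocalIndep G := by
    rw [hIdef, card_map, hs.card_eq, maxLocalIndep, hv]
  have hI : ∀ x ∈ I, G.Adj v x := by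
    intro x hx
    obtain ⟨y, -, rfl⟩ := mem_map.1 hx
    exact y.2
  have hI' : ∀ x ∈ I, ∀ y ∈ I, ¬ G.Adj x y := by
    intro x hx y hy hxy
    obtain ⟨x', hx', rfl⟩ := mem_map.1 hx
    obtain ⟨y', hy', rfl⟩ := mem_map.1 hy
    have hne' : x' ≠ y' := fun h => hxy.ne (by rw [h])
    exact hs.isIndepSet (mem_coe.2 hx') (mem_coe.2 hy') hne' hxy
  have hecc : ∀ r, ∃ t, ecc G r = G.dist r t := fun r => by
    obtain ⟨t, -, ht⟩ := exists_mem_eq_sup (univ : Finset V) univ_nonempty
      (fun u => G.dist r u)
    exact ⟨t, ht⟩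
  have b1 : ∀ r, ecc G r + maxLocalIndep G ≤ bipNum G + 1 := fun r => by
    obtain ⟨t, ht⟩ := hecc r
    have h1 := key G hc r t v I hI hI'
    have h2 := count1 (G.dist r t) (G.dist r v)
    omega
  have b2 : ecc G v + maxLocalIndep G ≤ bipNum G := by
    obtain ⟨t, ht⟩ := hecc v
    have h1 := key G hc v t v I hI hI'
    have h2 := count2 (G.dist v t)
    rw [SimpleGraph.dist_self] at h1
    omega
  have hpos : (0 : ℝ) < Fintype.card V := by exact_mod_cast Fintype.card_pos
  have hlt : avgEcc G < (bipNum G : ℝ) + 1 - maxLocalIndep G := by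
    rw [avgEcc, div_lt_iff₀ hpos]
    have : ∑ _u : V, ((bipNum G : ℝ) + 1 - maxLocalIndep G)
        = ((bipNum G : ℝ) + 1 - maxLocalIndep G) * Fintype.card V := by
      rw [sum_const, card_univ, nsmul_eq_mul, mul_comm]
    rw [← this]
    apply sum_lt_sum
    · intro u _
      have : (ecc G u : ℝ) + maxLocalIndep G ≤ bipNum G + 1 := by exact_mod_cast b1 u
      linarith
    · refine ⟨v, mem_univ v, ?_⟩
      have : (ecc G v : ℝ) + maxLocalIndep G ≤ bipNum G := by exact_mod_cast b2
      linarith
  rw [Int.floor_le_iff]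
  push_cast
  linarith

end Pool.Agent.Results.MP_b44c21_co.BipartiteBound
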